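import Pool.Agent.helper11.VQ.Spec3b

/-!
# Row vq:WXV (MP_07c750_an, project VQ, block 3b): the second moment of one word
-/

open scoped MatrixGroups ContDiff Topology UpperHalfPlane ComplexConjugate ENNReal
open UpperHalfPlane MeasureTheory Filter Set

set_option autoImplicit false

namespace Pool.Agent.VQ

open Pool.Agent.RS
open Pool.Agent.RPQ (CEig mean VV IsOp IsMul OProj wrd PJ nst mks MO Net Cl)

noncomputable section

theorem WXV_qmono {Y : Type} [MeasurableSpace Y] (m : Measure Y) (M : Y → Y → ENNReal) (V V' : Y → ENNReal) (h : ∀ x, V x ≤ V' x) :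
    ∀ (n : ℕ) (x : Y), qZ m M n V x ≤ qZ m M n V' x := by
  intro n
  induction n with
  | zero => exact h
  | succ n ih =>
    intro x
    exact lintegral_mono fun y => mul_le_mul_right (ih y) _

theorem WXV_tsum {ι : Type} (f : ι → ENNReal) (T : Set ι) (hT : T.Finite) (B : ENNReal) (c : ℝ) (hc : (T.ncard : ℝ) ≤ c)
    (h0 : ∀ i, i ∉ T → f i = 0) (h1 : ∀ i, f i ≤ B) : ∑' i, f i ≤ ENNReal.ofReal c * B := by
  rw [tsum_eq_sum (s := hT.toFinset) (fun i hi => h0 i (fun h => hi (hT.mem_toFinset.2 h)))]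
  refine (Finset.sum_le_card_nsmul _ _ B fun i _ => h1 i).trans ?_
  rw [nsmul_eq_mul]
  refine mul_le_mul_left ?_ _
  rw [← Set.ncard_eq_toFinset_card T hT, ← ENNReal.ofReal_natCast]
  exact ENNReal.ofReal_le_ofReal hc

theorem WXV_ch {Γ : Subgroup SL(2, ℝ)} {ch : ℝ → ℝ} {D : Dyn} {A : Prm} {R θ ζ c0 M0 : ℝ} {N b nc J : ℕ} {χ : Fin J → ℍ → ℝ} {K : ℝ} {S : Set (SL(2, ℝ) × ℝ)}
    (hV : VH Γ ch D A R θ ζ c0 M0 N b nc J χ K S) (l : List ℕ) (w : ℕ → SL(2, ℝ) × ℝ)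
    (hw : wM (fun x y => ‖ub D ch A R x y‖ₑ) l w ≠ 0) : Ch D A R (nst l) w ∧ dW (w 0) (w (nst l)) ≤ nst l * Real.log R := by
  have h1 : ∀ j < nst l, ub D ch A R (w j) (w (j + 1)) ≠ 0 := by
    intro j hj h0
    apply hw
    unfold wM
    refine Finset.prod_eq_zero (Finset.mem_range.2 hj) ?_
    show ‖ub D ch A R (w j) (w (j + 1))‖ₑ = 0
    rw [h0, enorm_zero]
  refine ⟨fun j hj => hV.rch _ _ (h1 j hj), ?_⟩
  have h2 : ∀ k ≤ nst l, dW (w 0) (w k) ≤ k * Real.log R := by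
    intro k
    induction k with
    | zero =>
      intro _
      show dist _ _ ≤ _
      rw [dist_self]
      simp
    | succ k ih =>
      intro hk
      have h3 := ih (by omega)
      have h4 := hV.rng _ _ (h1 k (by omega))
      have h5 : dW (w 0) (w (k + 1)) ≤ dW (w 0) (w k) + dW (w k) (w (k + 1)) := dist_triangle _ _ _
      push_cast
      linarith
  exact h2 _ le_rfl

theorem WXV_nst {b L n : ℕ} (hL : 1 ≤ L) {l : List ℕ} (hl : l ∈ AdZ b L n) : l ≠ [] ∧ 1 ≤ nst l := by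
  obtain ⟨c, hc, -, rfl⟩ := hl
  have h1 : c ≠ [] := by
    intro h
    rw [h, List.length_nil] at hc
    omega
  obtain ⟨a, c', rfl⟩ := List.exists_cons_of_ne_nil h1
  refine ⟨by simp, ?_⟩
  unfold nst
  simp only [List.map_cons, List.sum_cons]
  omega

theorem WXV_mD (F : Set ℍ) (R : ℝ) (hR : 1 ≤ R) : mW R (DW F) ≤ mG (dG F) * ENNReal.ofReal 4 ∧ mW 1 (DW F) = mG (dG F) * ENNReal.ofReal 4 := by
  have h1 : ∀ R : ℝ, 0 < R → mW R (DW F) = mG (dG F) * ENNReal.ofReal (4 * R ^ (-(1 / 4) : ℝ)) := by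
    intro R hR
    unfold mW DW
    rw [Measure.prod_prod, Measure.restrict_apply_univ]
    unfold Wi
    rw [Real.volume_Icc]
    congr 2
    ring
  constructor
  · rw [h1 R (by linarith)]
    refine mul_le_mul_right (ENNReal.ofReal_le_ofReal ?_) _
    have h2 : R ^ (-(1 / 4) : ℝ) ≤ 1 := Real.rpow_le_one_of_one_le_of_nonpos hR (by norm_num)
    linarith
  · rw [h1 1 one_pos, Real.one_rpow, mul_one]

/-- the first numerical estimate -/
theorem WXV_num1 (R θ ζ M0 V : ℝ) (N n' L : ℕ) (hR : 1 ≤ R) (hRV : (8 * V) ^ 2 ≤ R) (hV : 0 ≤ V) (hζ : 0 ≤ ζ) (hNζ : N * ζ ≤ 1 / 4) (hn : 1 ≤ n') (hnN : n' ≤ N)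
    (hL : M0 + 3 ≤ θ * L) :
    R ^ (1 / 8 : ℝ) * (R ^ (-2 + ζ)) ^ (n' - 1) * ((R ^ 2) ^ n' * (R ^ (-θ)) ^ L * (4 * V)) ≤ R ^ (-M0) / 2 := by
  have hR0 : 0 < R := by linarith
  obtain ⟨k, rfl⟩ : ∃ k, n' = k + 1 := ⟨n' - 1, by omega⟩
  rw [Nat.add_sub_cancel]
  have e1 : (R ^ (-2 + ζ)) ^ k = R ^ ((-2 + ζ) * k) := by rw [← Real.rpow_natCast, ← Real.rpow_mul hR0.le]
  have e2 : (R ^ 2) ^ (k + 1) = R ^ ((2 : ℝ) * (k + 1)) := by
    rw [← pow_mul, ← Real.rpow_natCast]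
    push_cast
    ring_nf
  have e3 : (R ^ (-θ)) ^ L = R ^ ((-θ) * L) := by rw [← Real.rpow_natCast, ← Real.rpow_mul hR0.le]
  rw [e1, e2, e3]
  have e4 : R ^ (1 / 8 : ℝ) * R ^ ((-2 + ζ) * k) * (R ^ ((2 : ℝ) * (k + 1)) * R ^ ((-θ) * L) * (4 * V)) =
      R ^ ((1 / 8 : ℝ) + (-2 + ζ) * k + (2 * (k + 1) + (-θ) * L)) * (4 * V) := by
    rw [Real.rpow_add hR0, Real.rpow_add hR0, Real.rpow_add hR0]
    ring
  rw [e4]
  have hk : (k : ℝ) * ζ ≤ 1 / 4 := by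
    have h1 : (k : ℝ) ≤ N := by
      have : k ≤ N := by omega
      exact_mod_cast this
    nlinarith
  have h2 : R ^ ((1 / 8 : ℝ) + (-2 + ζ) * k + (2 * (k + 1) + (-θ) * L)) ≤ R ^ (-M0 + -(1 / 2) : ℝ) := by
    apply Real.rpow_le_rpow_of_exponent_le hR
    nlinarith
  have h3 : R ^ (-M0 + -(1 / 2) : ℝ) = R ^ (-M0) * R ^ (-(1 / 2) : ℝ) := Real.rpow_add hR0 _ _
  have h4 : R ^ (-(1 / 2) : ℝ) * (8 * V) ≤ 1 := by
    rw [Real.rpow_neg hR0.le, ← Real.sqrt_eq_rpow]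
    have h5 : 8 * V ≤ Real.sqrt R := Real.le_sqrt_of_sq_le hRV
    have h6 : 0 < Real.sqrt R := Real.sqrt_pos.2 hR0
    rw [inv_mul_le_iff₀ h6]
    linarith
  have h7 : 0 ≤ R ^ (-M0) := Real.rpow_nonneg hR0.le _
  calc R ^ ((1 / 8 : ℝ) + (-2 + ζ) * k + (2 * (k + 1) + (-θ) * L)) * (4 * V) ≤ R ^ (-M0 + -(1 / 2) : ℝ) * (4 * V) :=
        mul_le_mul_of_nonneg_right h2 (by linarith)
    _ = R ^ (-M0) * (R ^ (-(1 / 2) : ℝ) * (8 * V)) / 2 := by rw [h3]; ring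
    _ ≤ R ^ (-M0) * 1 / 2 := by
        have := mul_le_mul_of_nonneg_left h4 h7
        linarith
    _ = R ^ (-M0) / 2 := by rw [mul_one]

/-- the second numerical estimate -/
theorem WXV_num2 (R M0 V : ℝ) (N : ℕ) (hR : 1 ≤ R) (hRV : (8 * V) ^ 2 ≤ R) :
    R ^ (-(10 * N + M0 + 10)) * (R ^ (4 * N + 1)) ^ 2 * (4 * V) ^ 2 ≤ R ^ (-M0) / 2 := by
  have hR0 : 0 < R := by linarith
  have e1 : (R ^ (4 * N + 1)) ^ 2 = R ^ ((8 : ℝ) * N + 2) := by
    rw [← pow_mul, ← Real.rpow_natCast]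
    push_cast
    ring_nf
  have e2 : R ^ (-(10 * N + M0 + 10)) * R ^ ((8 : ℝ) * N + 2) = R ^ (-M0) * R ^ (-(2 * N + 8 : ℝ)) := by
    rw [← Real.rpow_add hR0, ← Real.rpow_add hR0]
    congr 1
    ring
  rw [e1, e2]
  have h1 : R ^ (-(2 * N + 8 : ℝ)) ≤ R ^ (-1 : ℝ) := by
    apply Real.rpow_le_rpow_of_exponent_le hR
    have : (0 : ℝ) ≤ N := Nat.cast_nonneg N
    linarith
  have h2 : R ^ (-1 : ℝ) = R⁻¹ := Real.rpow_neg_one R
  have h3 : R ^ (-(2 * N + 8 : ℝ)) * (4 * V) ^ 2 ≤ 1 / 2 := by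
    have h4 : R ^ (-(2 * N + 8 : ℝ)) * (4 * V) ^ 2 ≤ R⁻¹ * (4 * V) ^ 2 := by
      rw [← h2]
      exact mul_le_mul_of_nonneg_right h1 (sq_nonneg _)
    have h5 : R⁻¹ * (4 * V) ^ 2 ≤ 1 / 2 := by
      rw [inv_mul_le_iff₀ hR0]
      nlinarith
    exact h4.trans h5
  have h6 : 0 ≤ R ^ (-M0) := Real.rpow_nonneg hR0.le _
  calc R ^ (-M0) * R ^ (-(2 * N + 8 : ℝ)) * (4 * V) ^ 2 = R ^ (-M0) * (R ^ (-(2 * N + 8 : ℝ)) * (4 * V) ^ 2) := by ring
    _ ≤ R ^ (-M0) * (1 / 2) := mul_le_mul_of_nonneg_left h3 h6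
    _ = R ^ (-M0) / 2 := by ring

theorem WXV_proof (hEHZ : EHZ_stmt) (hMSZ : MSZ_stmt) (hPSC : PSC_stmt) (hMTV : MTV_stmt) (hKSZ : KSZ_stmt) (hVXZ : VXZ_stmt)
    (hGRW : RPQ.GRW_stmt) : WXV_stmt := by
  intro Γ F ch N M0 hSG hNice hN1 hM0
  obtain ⟨δ0, hδ0, hMT⟩ := hMTV Γ hSG
  obtain ⟨CG, hCG, hGR⟩ := hGRW Γ hSG
  have hfin : mG (dG F) < ⊤ := by
    have h1 := (hPSC Γ F 1 hSG hNice).fin
    rw [(WXV_mD F 1 le_rfl).2] at h1
    by_contra hcon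
    rw [not_lt, top_le_iff] at hcon
    rw [hcon, ENNReal.top_mul (by simp)] at h1
    exact lt_irrefl _ h1
  set V : ℝ := (mG (dG F)).toReal with hVdef
  have hV0 : 0 ≤ V := ENNReal.toReal_nonneg
  refine ⟨δ0, 3 + CG + (8 * V) ^ 2, hδ0, by nlinarith [sq_nonneg (8 * V)], ?_⟩
  intro B D A R θ ζ c0 b L n nc J χ K S S' W' l hR hOK hχ hVH hS'm hS'i hS'sub hW'm hW'i hb hL hl hlN hθ hθL
  have hR3 : 3 ≤ R := by nlinarith [sq_nonneg (8 * V)]
  have hR1 : 1 ≤ R := by linarith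
  have hR0 : 0 < R := by linarith
  have hRC : CG ≤ R := by nlinarith [sq_nonneg (8 * V)]
  have hRV : (8 * V) ^ 2 ≤ R := by linarith
  have hPS := hPSC Γ F R hSG hNice
  haveI := hPS.sf
  obtain ⟨hlne, hn1⟩ := WXV_nst hL hl
  have hζ := hVH.loss.1
  have hNζ := hVH.loss.2
  have hζ1 : ζ ≤ 1 / 4 := by
    have h1 : (1 : ℝ) ≤ N := by exact_mod_cast hN1
    nlinarith
  have hpow1 : ∀ k : ℕ, (R ^ (-2 + ζ)) ^ k ≤ 1 := fun k =>
    pow_le_one₀ (Real.rpow_nonneg hR0.le _) (Real.rpow_le_one_of_one_le_of_nonpos hR1 (by linarith))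
  have hmD : mW R (DW F) ≤ ENNReal.ofReal (4 * V) := by
    refine (WXV_mD F R hR1).1.trans (le_of_eq ?_)
    rw [mul_comm 4 V, ENNReal.ofReal_mul hV0, hVdef, ENNReal.ofReal_toReal hfin.ne]
  let M : SL(2, ℝ) × ℝ → SL(2, ℝ) × ℝ → ENNReal := fun x y => ‖ub D ch A R x y‖ₑ
  have hMm : Measurable (Function.uncurry M) := hVH.ker.meas.enorm
  let th : Fin J → SL(2, ℝ) × ℝ → ℝ := fun a => thP D (χ a) K (A.tu R)
  have hth : ∀ a, Measurable (th a) ∧ ∀ (γ : Γ) y, th a (γ • y) = th a y := by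
    intro a
    have h1 := hMT B D F (χ a) K (A.tu R) 0 hOK hNice (hχ a)
    exact ⟨h1.1, h1.2.1⟩
  have hu : KZ Γ dW (stZ W' (ub D ch A R)) :=
    (hKSZ Γ _ (mW R) (DW F) dW hPS).1 W' _ hW'm hW'i hVH.ker
  have huM : ∀ x y, ‖stZ W' (ub D ch A R) x y‖ₑ ≤ M x y := by
    intro x y
    have h1 : ‖stZ W' (ub D ch A R) x y‖ = ‖ub D ch A R x y‖ := by
      unfold stZ
      rw [norm_mul, Complex.norm_exp_ofReal_mul_I, one_mul]
    show ‖stZ W' (ub D ch A R) x y‖ₑ ≤ ‖ub D ch A R x y‖ₑ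
    rw [← ofReal_norm, ← ofReal_norm, h1]
  have hVX := hVXZ (SL(2, ℝ) × ℝ) (mW R)
  -- the bound for all chains
  have hS : ∀ x y : SL(2, ℝ) × ℝ, ∑' γ : Γ, ∫⁻ v, wM M l (vz x (γ • y) v) ∂mZ (mW R) (nst l - 1) ≤ ENNReal.ofReal (R ^ (4 * N + 1)) := by
    intro x y
    have hlog : 0 ≤ Real.log R := Real.log_nonneg hR1
    have hNlog : 0 ≤ N * Real.log R := mul_nonneg (Nat.cast_nonneg N) hlog
    obtain ⟨hT, hTc⟩ := hGR (N * Real.log R) (x.1 • I) (y.1 • I) hNlog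
    have hone : ENNReal.ofReal (R ^ (3 * N)) = ENNReal.ofReal (R ^ 3) ^ N := by
      rw [pow_mul, ENNReal.ofReal_pow (by positivity)]
    have h1 := WXV_tsum (fun γ : Γ => ∫⁻ v, wM M l (vz x (γ • y) v) ∂mZ (mW R) (nst l - 1)) _ hT (ENNReal.ofReal (R ^ (3 * N))) _ hTc ?_ ?_
    · refine h1.trans ?_
      rw [← ENNReal.ofReal_mul (by positivity)]
      apply ENNReal.ofReal_le_ofReal
      rw [Real.exp_nat_mul, Real.exp_log hR0]
      have e1 : CG * R ^ N * R ^ (3 * N) = CG * R ^ (4 * N) := by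
        rw [mul_assoc, ← pow_add]
        congr 2
        ring
      rw [e1, pow_succ, mul_comm (R ^ (4 * N)) R]
      exact mul_le_mul_of_nonneg_right hRC (by positivity)
    · intro γ hγ
      rw [lintegral_eq_zero_iff']
      · refine Filter.Eventually.of_forall fun v => ?_
        by_contra hne
        obtain ⟨-, h3⟩ := WXV_ch hVH l _ hne
        apply hγ
        have h4 := hVX.2.1 (nst l - 1) x (γ • y) v
        rw [Nat.sub_add_cancel hn1] at h4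
        rw [h4.1, h4.2] at h3
        have h5 : dW x (γ • y) = dist (x.1 • I : ℍ) ((γ : SL(2, ℝ)) • (y.1 • I)) := by
          show dist (x.1 • I : ℍ) ((((γ : SL(2, ℝ)) * y.1)) • I) = _
          rw [mul_smul]
        rw [h5] at h3
        refine h3.trans ?_
        have h6 : (nst l : ℝ) ≤ N := by exact_mod_cast hlN
        exact mul_le_mul_of_nonneg_right h6 hlog
      · refine Measurable.aemeasurable ?_
        unfold wM
        refine Finset.measurable_prod _ fun j _ => ?_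
        have h7 : ∀ j : ℕ, Measurable fun v : Fin (nst l - 1) → SL(2, ℝ) × ℝ => vz x (γ • y) v j := by
          intro j
          have h8 : Measurable fun v : Fin (nst l - 1) → SL(2, ℝ) × ℝ => ((x, γ • y), v) := measurable_const.prodMk measurable_id
          exact (hVX.2.2.1 (nst l - 1) j).comp h8
        exact hMm.comp ((h7 j).prodMk (h7 (j + 1)))
    · intro γ
      have h2 : ∀ v : Fin (nst l - 1) → SL(2, ℝ) × ℝ, wM M l (vz x (γ • y) v) ≤
          {v | Ch D A R (nst l) (vz x (γ • y) v)}.indicator (fun _ => ENNReal.ofReal (R ^ 3) ^ nst l) v := by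
        intro v
        by_cases hz : wM M l (vz x (γ • y) v) = 0
        · rw [hz]; exact bot_le
        · rw [Set.indicator_of_mem (show v ∈ {v | Ch D A R (nst l) (vz x (γ • y) v)} from (WXV_ch hVH l _ hz).1)]
          unfold wM
          refine (Finset.prod_le_pow_card _ _ (ENNReal.ofReal (R ^ 3)) fun j _ => ?_).trans ?_
          · show ‖ub D ch A R _ _‖ₑ ≤ _
            rw [← ofReal_norm]
            exact ENNReal.ofReal_le_ofReal (hVH.bd _ _)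
          · rw [Finset.card_range]
      refine (lintegral_mono h2).trans ((lintegral_indicator_const_le _ _).trans ?_)
      have h3 := hVH.vol (nst l) hn1 hlN x (γ • y)
      have h4 : mZ (mW R) (nst l - 1) {v | Ch D A R (nst l) (vz x (γ • y) v)} ≤ 1 := by
        refine h3.trans ?_
        rw [← ENNReal.ofReal_one]
        exact ENNReal.ofReal_le_ofReal (hpow1 _)
      calc ENNReal.ofReal (R ^ 3) ^ nst l * mZ (mW R) (nst l - 1) {v | Ch D A R (nst l) (vz x (γ • y) v)} ≤ ENNReal.ofReal (R ^ 3) ^ nst l * 1 :=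
            mul_le_mul_right h4 _
        _ = ENNReal.ofReal (R ^ 3) ^ nst l := mul_one _
        _ ≤ ENNReal.ofReal (R ^ 3) ^ N := by
            refine pow_le_pow_right₀ ?_ hlN
            rw [← ENNReal.ofReal_one]
            exact ENNReal.ofReal_le_ofReal (one_le_pow₀ hR1)
        _ = ENNReal.ofReal (R ^ (3 * N)) := hone.symm
  -- the bound for the undetected chains
  have hK : ∀ (x y : SL(2, ℝ) × ℝ) (v : Fin (nst l - 1) → SL(2, ℝ) × ℝ), wM M l (vz x y v) ≠ 0 →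
      ∑' γ : Γ, mZ (mW R) (nst l - 1) {v' | wM M l (vz x (γ • y) v') ≠ 0 ∧ {a : Fin J | 1 ≤ |phZ th l (vz x y v) a - phZ th l (vz x (γ • y) v') a|}.ncard < nc} ≤
        ENNReal.ofReal (R ^ (1 / 8 : ℝ)) * ENNReal.ofReal ((R ^ (-2 + ζ)) ^ (nst l - 1)) := by
    intro x y v hv
    have hw0 : vz x y v 0 = x := (hVX.2.1 (nst l - 1) x y v).1
    obtain ⟨hT, hTc⟩ := hVH.cnt (nst l) hn1 hlN x y (vz x y v) hw0 (WXV_ch hVH l _ hv).1
    refine WXV_tsum _ _ hT _ _ hTc ?_ ?_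
    · intro γ hγ
      have h1 : {v' : Fin (nst l - 1) → SL(2, ℝ) × ℝ | wM M l (vz x (γ • y) v') ≠ 0 ∧
          {a : Fin J | 1 ≤ |phZ th l (vz x y v) a - phZ th l (vz x (γ • y) v') a|}.ncard < nc} = ∅ := by
        rw [Set.eq_empty_iff_forall_notMem]
        rintro v' ⟨h2, h3⟩
        apply hγ
        have h4 := hVX.2.1 (nst l - 1) x (γ • y) v'
        rw [Nat.sub_add_cancel hn1] at h4
        exact ⟨vz x (γ • y) v', h4.1, h4.2, (WXV_ch hVH l _ h2).1, h3⟩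
      rw [h1, measure_empty]
    · intro γ
      refine le_trans (measure_mono ?_) (hVH.vol (nst l) hn1 hlN x (γ • y))
      rintro v' ⟨h2, -⟩
      exact (WXV_ch hVH l _ h2).1
  have hMi : ∀ (γ : Γ) (x y : SL(2, ℝ) × ℝ), M (γ • x) (γ • y) = M x y := by
    intro γ x y
    show ‖ub D ch A R (γ • x) (γ • y)‖ₑ = ‖ub D ch A R x y‖ₑ
    rw [hVH.ker.inv]
  have hMr : ∃ T : ℝ, ∀ x y, M x y ≠ 0 → dW x y ≤ T := by
    refine ⟨Real.log R, fun x y h => hVH.rng x y ?_⟩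
    intro h0
    apply h
    show ‖ub D ch A R x y‖ₑ = 0
    rw [h0, enorm_zero]
  have hE := hEHZ Γ (SL(2, ℝ) × ℝ) (mW R) (DW F) dW hPS J nc th (stZ W' (ub D ch A R)) M S' l _ (ENNReal.ofReal (R ^ (4 * N + 1))) hth hu hMm hMi huM hMr
    hS'm hS'i hlne ENNReal.ofReal_ne_top hS hK
  refine hE.trans ?_
  -- the mass
  have hN0 : (0 : ℝ) < N := by exact_mod_cast hN1
  have hRq : 0 < R ^ (-(1 / 4) : ℝ) := Real.rpow_pos_of_pos hR0 _
  have hmass := hMSZ (SL(2, ℝ) × ℝ) (mW R) M S' (DW F) (fun j => {p | |p.2| ≤ R ^ (-(1 / 4) : ℝ) * (1 + j / (4 * N))}) (ENNReal.ofReal c0)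
    (ENNReal.ofReal (R ^ (-θ))) b N L n l hMm hS'm ?_ ?_ hVH.row ?_ hb hL hl hlN
  rotate_left
  · intro x hx
    have h1 := (hS'sub x hx).2
    show |x.2| ≤ R ^ (-(1 / 4) : ℝ) * (1 + ((0 : ℕ) : ℝ) / (4 * N))
    rw [Nat.cast_zero, zero_div, add_zero, mul_one]
    exact h1
  · intro j x y hx hM
    have h1 : ub D ch A R x y ≠ 0 := by
      intro h0
      apply hM
      show ‖ub D ch A R x y‖ₑ = 0
      rw [h0, enorm_zero]
    have h2 := hVH.jmp x y (hVH.rch x y h1)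
    have h3 : |x.2| ≤ R ^ (-(1 / 4) : ℝ) * (1 + (j : ℝ) / (4 * N)) := hx
    show |y.2| ≤ R ^ (-(1 / 4) : ℝ) * (1 + ((j + 1 : ℕ) : ℝ) / (4 * N))
    have h4 : |y.2| ≤ |x.2| + |x.2 - y.2| := by
      have h5 : y.2 = x.2 - (x.2 - y.2) := by ring
      calc |y.2| = |x.2 - (x.2 - y.2)| := by rw [← h5]
        _ ≤ |x.2| + |x.2 - y.2| := abs_sub _ _
    have h6 : R ^ (-(1 / 4) : ℝ) * (1 + ((j + 1 : ℕ) : ℝ) / (4 * N)) = R ^ (-(1 / 4) : ℝ) * (1 + (j : ℝ) / (4 * N)) + R ^ (-(1 / 4) : ℝ) / (4 * N) := by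
      push_cast
      field_simp
      ring
    rw [h6]
    linarith
  · intro j hj x hx
    have h3 : |x.2| ≤ R ^ (-(1 / 4) : ℝ) * (1 + (j : ℝ) / (4 * N)) := hx
    have h1 : x.2 ∈ Wi (5 / 4) R := by
      have h4 : (j : ℝ) / (4 * N) ≤ 1 / 4 := by
        have h5 : (j : ℝ) ≤ N := by exact_mod_cast hj
        rw [div_le_iff₀ (by positivity)]
        linarith
      have h6 : |x.2| ≤ 5 / 4 * R ^ (-(1 / 4) : ℝ) := by
        refine h3.trans ?_
        nlinarith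
      exact ⟨neg_le_of_abs_le h6, le_of_abs_le h6⟩
    have h2 := hVH.ld x h1
    refine (WXV_qmono (mW R) M _ _ ?_ b x).trans (h2.trans ?_)
    · intro y
      exact Set.indicator_le_indicator_of_subset (fun p hp => (hS'sub p hp).1) (fun _ => bot_le) y
    · rw [← ENNReal.ofReal_pow (le_trans (by positivity) hVH.c0.1), ← ENNReal.ofReal_mul (pow_nonneg (le_trans (by positivity) hVH.c0.1) _), mul_comm]
      apply ENNReal.ofReal_le_ofReal
      exact mul_le_mul_of_nonneg_right (pow_le_pow_left₀ (by positivity) hVH.c0.1 b) (Real.rpow_nonneg hR0.le _)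
  have hc0 : 0 ≤ c0 := le_trans (by positivity) hVH.c0.1
  have hT1 : ENNReal.ofReal (R ^ (1 / 8 : ℝ)) * ENNReal.ofReal ((R ^ (-2 + ζ)) ^ (nst l - 1)) *
      (∫⁻ x in DW F, ∫⁻ y, ∫⁻ v, inZ S' l (vz x y v) * wM M l (vz x y v) ^ 2 ∂mZ (mW R) (nst l - 1) ∂mW R ∂mW R) ≤ ENNReal.ofReal (R ^ (-M0) / 2) := by
    have h1 : ENNReal.ofReal c0 ^ nst l * ENNReal.ofReal (R ^ (-θ)) ^ L * mW R (DW F) ≤
        ENNReal.ofReal ((R ^ 2) ^ nst l * (R ^ (-θ)) ^ L * (4 * V)) := by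
      rw [ENNReal.ofReal_mul (by positivity), ENNReal.ofReal_mul (by positivity), ENNReal.ofReal_pow (p := R ^ 2) (by positivity),
        ENNReal.ofReal_pow (p := R ^ (-θ)) (by positivity)]
      refine mul_le_mul' (mul_le_mul' ?_ le_rfl) hmD
      exact pow_le_pow_left' (ENNReal.ofReal_le_ofReal hVH.c0.2) _
    refine (mul_le_mul_right (hmass.trans h1) _).trans ?_
    rw [← ENNReal.ofReal_mul (by positivity), ← ENNReal.ofReal_mul (by positivity)]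
    exact ENNReal.ofReal_le_ofReal (WXV_num1 R θ ζ M0 V N (nst l) L hR1 hRV hV0 hζ hNζ hn1 hlN hθL)
  have hT2 : ENNReal.ofReal ((9 / 10) ^ nc) * ENNReal.ofReal (R ^ (4 * N + 1)) ^ 2 * mW R (DW F) ^ 2 ≤ ENNReal.ofReal (R ^ (-M0) / 2) := by
    have h1 : ENNReal.ofReal ((9 / 10) ^ nc) * ENNReal.ofReal (R ^ (4 * N + 1)) ^ 2 * mW R (DW F) ^ 2 ≤
        ENNReal.ofReal (R ^ (-(10 * N + M0 + 10)) * (R ^ (4 * N + 1)) ^ 2 * (4 * V) ^ 2) := by
      rw [ENNReal.ofReal_mul (by positivity), ENNReal.ofReal_mul (by positivity), ENNReal.ofReal_pow (p := R ^ (4 * N + 1)) (by positivity),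
        ENNReal.ofReal_pow (p := 4 * V) (by positivity)]
      refine mul_le_mul' (mul_le_mul' (ENNReal.ofReal_le_ofReal hVH.nc1) le_rfl) ?_
      exact pow_le_pow_left' hmD _
    exact h1.trans (ENNReal.ofReal_le_ofReal (WXV_num2 R M0 V N hR1 hRV))
  refine (add_le_add hT1 hT2).trans (le_of_eq ?_)
  rw [← ENNReal.ofReal_add (by positivity) (by positivity), add_halves]

end

end Pool.Agent.VQ
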